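import Pool.Agent.N682.MS.Stm

/-!
# Project MS (helper682), leaf R1: the group acts trivially on the sequences which commute with it
-/

set_option autoImplicit false

namespace Pool.Agent.N853.MS.R1

open Matrix Filter Topology
open Pool.Agent.W661.RC (hs Mt)
open Pool.Agent.W683.RC
open Pool.Agent.N682.MS
open Pool.Agent.W637.RC.PTD (uni)

noncomputable section

/-- asymptotic equality of sequences of matrices -/
def E {I : Type} (F : Filter I) {d : I → ℕ} (x y : ∀ i, Mt (d i)) : Prop :=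
  Tendsto (fun i => hs (x i - y i)) F (𝓝 0)

section basic

variable {I : Type} {F : Filter I} {d : I → ℕ}

theorem E.refl (x : ∀ i, Mt (d i)) : E F x x := by
  unfold E
  simp only [sub_self, hs_zero]
  exact tendsto_const_nhds

theorem E.symm {x y : ∀ i, Mt (d i)} (h : E F x y) : E F y x := by
  unfold E at h ⊢
  simpa only [hs_sub_comm] using h

theorem E.trans {x y z : ∀ i, Mt (d i)} (h : E F x y) (h' : E F y z) : E F x z := by
  unfold E at h h' ⊢
  have h0 : Tendsto (fun i => 2 * hs (x i - y i) + 2 * hs (y i - z i)) F (𝓝 0) := by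
    simpa using (h.const_mul 2).add (h'.const_mul 2)
  refine squeeze_zero (fun i => hs_nonneg _) (fun i => ?_) h0
  have e : x i - z i = (x i - y i) + (y i - z i) := by abel
  rw [e]
  exact hs_add_le _ _

theorem hs_U_mul {n : ℕ} (U : Matrix.unitaryGroup (Fin n) ℂ) (x : Mt n) :
    hs ((U : Mt n) * x) = hs x := by
  have h : (U : Mt n)ᴴ * (U : Mt n) = 1 := by
    have := Unitary.coe_star_mul_self U
    simpa [Matrix.star_eq_conjTranspose] using this
  exact hs_isom_mul h x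

theorem hs_mul_U {n : ℕ} (U : Matrix.unitaryGroup (Fin n) ℂ) (x : Mt n) :
    hs (x * (U : Mt n)) = hs x := by
  have h : (U : Mt n) * (U : Mt n)ᴴ = 1 := by
    have := Unitary.coe_mul_star_self U
    simpa [Matrix.star_eq_conjTranspose] using this
  exact hs_mul_coisom h x

theorem E.left {x y : ∀ i, Mt (d i)} (U : ∀ i, Matrix.unitaryGroup (Fin (d i)) ℂ) :
    E F (fun i => (U i).val * x i) (fun i => (U i).val * y i) ↔ E F x y := by
  unfold E
  simp only [← Matrix.mul_sub, hs_U_mul]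

theorem E.right {x y : ∀ i, Mt (d i)} (U : ∀ i, Matrix.unitaryGroup (Fin (d i)) ℂ) :
    E F (fun i => x i * (U i).val) (fun i => y i * (U i).val) ↔ E F x y := by
  unfold E
  simp only [← Matrix.sub_mul, hs_mul_U]

end basic

section op

open scoped Matrix.Norms.L2Operator

theorem hs_mul_le_opn {n : ℕ} (a x : Mt n) : hs (a * x) ≤ opn a ^ 2 * hs x := by
  have h : ∀ j : Fin n, ∑ i, ‖(a * x) i j‖ ^ 2 ≤ opn a ^ 2 * ∑ i, ‖x i j‖ ^ 2 := by
    intro j
    have h1 := (Matrix.toEuclideanCLM (𝕜 := ℂ) a).le_opNorm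
      (WithLp.toLp 2 (fun i => x i j) : EuclideanSpace ℂ (Fin n))
    have h2 := pow_le_pow_left₀ (norm_nonneg _) h1 2
    rw [mul_pow, EuclideanSpace.norm_sq_eq, EuclideanSpace.norm_sq_eq] at h2
    refine le_trans (le_of_eq ?_) h2
    rfl
  unfold hs
  rw [Finset.sum_comm, Finset.sum_comm (f := fun i j => ‖x i j‖ ^ 2), Finset.mul_sum]
  exact Finset.sum_le_sum fun j _ => h j

theorem opn_conjTranspose {n : ℕ} (a : Mt n) : opn aᴴ = opn a := by
  unfold opn
  rw [← Matrix.star_eq_conjTranspose, map_star, ContinuousLinearMap.star_eq_adjoint]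
  exact LinearIsometryEquiv.norm_map ContinuousLinearMap.adjoint _

theorem hs_mul_le_opn' {n : ℕ} (a x : Mt n) : hs (x * a) ≤ opn a ^ 2 * hs x := by
  rw [← hs_conjTranspose (x * a), ← hs_conjTranspose x, Matrix.conjTranspose_mul,
    ← opn_conjTranspose a]
  exact hs_mul_le_opn _ _

end op

section asf

variable {I G : Type} [Group G] {F : Filter I} {d : I → ℕ}
  {φ : ∀ i, G → Matrix.unitaryGroup (Fin (d i)) ℂ}

theorem lmul (hφ : AsF F d φ) (g h : G) {x : ∀ i, Mt (d i)} (hx : ∀ i, hs (x i) ≤ 1) :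
    E F (fun i => (φ i (g * h)).val * x i) (fun i => (φ i g).val * ((φ i h).val * x i)) := by
  unfold E
  have h1 := (hφ g h).pow 2
  rw [zero_pow two_ne_zero] at h1
  refine squeeze_zero (fun i => hs_nonneg _) (fun i => ?_) h1
  beta_reduce
  rw [← Matrix.mul_assoc, ← Matrix.sub_mul]
  refine (hs_mul_le_opn _ _).trans ?_
  exact mul_le_of_le_one_right (sq_nonneg _) (hx i)

theorem rmul (hφ : AsF F d φ) (g h : G) {x : ∀ i, Mt (d i)} (hx : ∀ i, hs (x i) ≤ 1) :
    E F (fun i => x i * (φ i (g * h)).val) (fun i => x i * (φ i g).val * (φ i h).val) := by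
  unfold E
  have h1 := (hφ g h).pow 2
  rw [zero_pow two_ne_zero] at h1
  refine squeeze_zero (fun i => hs_nonneg _) (fun i => ?_) h1
  beta_reduce
  rw [Matrix.mul_assoc, ← Matrix.mul_sub]
  refine (hs_mul_le_opn' _ _).trans ?_
  exact mul_le_of_le_one_right (sq_nonneg _) (hx i)

theorem one_l (hφ : AsF F d φ) {x : ∀ i, Mt (d i)} (hx : ∀ i, hs (x i) ≤ 1) :
    E F (fun i => (φ i 1).val * x i) x := by
  have h := lmul hφ 1 1 hx
  rw [mul_one] at h
  exact ((E.left (fun i => φ i 1)).1 h).symm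

theorem one_r (hφ : AsF F d φ) {x : ∀ i, Mt (d i)} (hx : ∀ i, hs (x i) ≤ 1) :
    E F (fun i => x i * (φ i 1).val) x := by
  have h := rmul hφ 1 1 hx
  rw [mul_one] at h
  exact ((E.right (fun i => φ i 1)).1 h).symm

/-- multiplication on the right by `g` and by `g⁻¹` -/
theorem cancel_r (hφ : AsF F d φ) (g : G) {x : ∀ i, Mt (d i)} (hx : ∀ i, hs (x i) ≤ 1) :
    E F (fun i => x i * (φ i g).val * (φ i g⁻¹).val) x := by
  have h := rmul hφ g g⁻¹ hx
  rw [mul_inv_cancel] at h
  exact h.symm.trans (one_r hφ hx)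

/-- conjugates of almost trivially acting elements by elements commuting with `ξ` -/
theorem conj_triv (hφ : AsF F d φ) {ξ : ∀ i, Mt (d i)} (hξ : ∀ i, hs (ξ i) ≤ 1) {g x : G}
    (hg : E F (fun i => (φ i g).val * ξ i) (fun i => ξ i * (φ i g).val))
    (hg' : E F (fun i => (φ i g⁻¹).val * ξ i) (fun i => ξ i * (φ i g⁻¹).val))
    (hx : E F (fun i => (φ i x).val * ξ i) ξ) :
    E F (fun i => (φ i (g * x * g⁻¹)).val * ξ i) ξ := by
  have h1 := lmul hφ (g * x) g⁻¹ hξ
  have h2 := (E.left (F := F) (fun i => φ i (g * x))).2 hg'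
  have h3 := (E.right (F := F) (fun i => φ i g⁻¹)).2 (lmul hφ g x hξ)
  have h4 := (E.right (F := F) (fun i => φ i g⁻¹)).2 ((E.left (F := F) (fun i => φ i g)).2 hx)
  have h5 := (E.right (F := F) (fun i => φ i g⁻¹)).2 hg
  have h6 := cancel_r hφ g hξ
  refine h1.trans (h2.trans ?_)
  simp only [← Matrix.mul_assoc] at h3 h4 h5 h6 ⊢
  exact h3.trans (h4.trans (h5.trans h6))

end asf

theorem t_r1 : S_R1 := by
  intro I F Γ G _ _ Φ l x0 ι hcomm hgen d φ hφ hR2 ξ hξ hξc x
  -- the hypothesis on `ξ`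
  have hc : ∀ x, E F (fun i => (φ i (ι x)).val * ξ i) (fun i => ξ i * (φ i (ι x)).val) := hξc
  -- the sequence `y`
  obtain ⟨y, hy⟩ : ∃ y : ∀ i, Mt (d i), y = fun i => (φ i (ι l)).val * ξ i := ⟨_, rfl⟩
  have hy1 : ∀ i, hs (y i) ≤ 1 := by
    intro i
    rw [hy]
    simp only [hs_U_mul]
    exact hξ i
  have hyc0 : ∀ x, Cm F φ y (ι (Φ x)) := by
    intro x
    have h1 := (lmul hφ (ι (Φ x)) (ι l) hξ).symm
    rw [← hcomm] at h1
    have h2 := lmul hφ (ι l) (ι (Φ x)) hξ
    have h3 := (E.left (F := F) (fun i => φ i (ι l))).2 (hc (Φ x))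
    have h4 := h1.trans (h2.trans h3)
    rw [hy]
    unfold Cm
    unfold E at h4
    simpa only [Matrix.mul_assoc] using h4
  have hyc : ∀ x, E F (fun i => (φ i (ι x)).val * y i) (fun i => y i * (φ i (ι x)).val) :=
    hR2 y hy1 hyc0
  -- the element `w₀`
  have hw : E F (fun i => (φ i (ι (l⁻¹ * x0 * l * x0⁻¹))).val * ξ i) ξ := by
    obtain ⟨A, hA⟩ : ∃ A : G, A = ι (l⁻¹ * x0 * l * x0⁻¹) := ⟨_, rfl⟩
    rw [← hA]
    have hLA : ι l * A = ι x0 * ι l * (ι x0)⁻¹ := by
      rw [hA]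
      simp only [map_mul, map_inv]
      group
    refine (E.left (F := F) (fun i => φ i (ι l))).1 ?_
    have h1 := (lmul hφ (ι l) A hξ).symm
    rw [hLA] at h1
    have h2 := lmul hφ (ι x0 * ι l) (ι x0)⁻¹ hξ
    have h3 := (E.left (F := F) (fun i => φ i (ι x0 * ι l))).2 (hc x0⁻¹)
    rw [map_inv] at h3
    have h4 := (E.right (F := F) (fun i => φ i (ι x0)⁻¹)).2 (lmul hφ (ι x0) (ι l) hξ)
    have h5 := (E.right (F := F) (fun i => φ i (ι x0)⁻¹)).2 (hyc x0)
    have h6 := cancel_r hφ (ι x0) hy1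
    rw [hy] at h5 h6
    simp only [← Matrix.mul_assoc] at h1 h2 h3 h4 h5 h6 ⊢
    exact h1.trans (h2.trans (h3.trans (h4.trans (h5.trans h6))))
  -- the subgroup
  obtain ⟨Z, hZ⟩ : ∃ Z : Subgroup Γ, ∀ x, x ∈ Z ↔ E F (fun i => (φ i (ι x)).val * ξ i) ξ := by
    refine ⟨{ carrier := {x | E F (fun i => (φ i (ι x)).val * ξ i) ξ}
              mul_mem' := ?_
              one_mem' := ?_
              inv_mem' := ?_ }, fun x => Iff.rfl⟩
    · intro a b ha hb
      simp only [Set.mem_ofPred_eq] at ha hb ⊢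
      rw [map_mul]
      exact (lmul hφ (ι a) (ι b) hξ).trans
        (((E.left (F := F) (fun i => φ i (ι a))).2 hb).trans ha)
    · simp only [Set.mem_ofPred_eq]
      rw [map_one]
      exact one_l hφ hξ
    · intro a ha
      simp only [Set.mem_ofPred_eq] at ha ⊢
      refine (E.left (F := F) (fun i => φ i (ι a))).1 ?_
      have h1 := lmul hφ (ι a) (ι a)⁻¹ hξ
      rw [mul_inv_cancel] at h1
      rw [map_inv]
      exact h1.symm.trans ((one_l hφ hξ).trans ha.symm)
  have hZn : Z.Normal := by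
    refine ⟨fun a ha g => ?_⟩
    rw [hZ] at ha ⊢
    rw [map_mul, map_mul, map_inv]
    refine conj_triv hφ hξ (hc g) ?_ ha
    have := hc g⁻¹
    rwa [map_inv] at this
  have hle : Subgroup.normalClosure {l⁻¹ * x0 * l * x0⁻¹} ≤ Z := by
    refine Subgroup.normalClosure_le_normal ?_
    intro a ha
    rw [Set.mem_singleton_iff] at ha
    rw [ha]
    exact (hZ _).2 hw
  obtain ⟨x', hx', hxx'⟩ := hgen x
  have hfin := (hZ x').1 (hle hx')
  rw [← hxx'] at hfin
  unfold E at hfin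
  refine hfin.congr fun i => ?_
  rw [Matrix.sub_mul, Matrix.one_mul]

end

end Pool.Agent.N853.MS.R1
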